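import Pool.Agent.Q49.WU.Origin

/-!
# Elliptic curves over imaginary quadratic fields and hypergraphs

Let `K` be an imaginary quadratic field and `ℓ` a prime. Let `A` be the abelian category of
finite-dimensional continuous representations of `G_K` over `ℚ̄_ℓ`, with the Tate twists `M ↦ M(a)`. For a
separated scheme `X` of finite type over `ℚ` let `D.H m n X` be the object `Gr^W_{1+2m} H^n_c(X_ℚ̄, ℚ̄_ℓ)`,
restricted to `G_K`. For smooth projective `Y` the object `D.H 0 n Y` is `H^1(Y_ℚ̄, ℚ̄_ℓ)` if `n = 1`, and
zero for all other `n`; in odd weight the point `Spec ℚ` contributes zero (hypothesis `point`).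

`V` is the set of the elliptic curves over `K` without complex multiplication by an order in `K`, and
`rho E = H^1(E_K̄, ℚ̄_ℓ)`, an irreducible representation (Serre; hypothesis `irred`), pure of weight one
(hypothesis `weight`). It is a direct factor of the restriction to `G_K` of `H^1` of the smooth projective
curve `E` over `ℚ` (hypothesis `curve`). `md E` says that `E` is modular by a Bianchi newform of weight `2`
over `K`; by Faltings' theorem this depends only on `rho E`.

**Theorem.** (1) For every elliptic curve `E` over `K` without complex multiplication by an order in `K`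
there is a smooth affine cubic hypersurface `X_H : ∑_{(p, q, r) ∈ H} x_p y_q z_r = 1` with coefficients `0`
and `1`, `H` a finite set of triples, such that `rho E` is a subquotient of
`Gr^W_{2a-1} H^n_c((X_H)_ℚ̄, ℚ̄_ℓ)(a - 1)`, restricted to `G_K`, for some `n`, where `a` is the number of the
variables `x_p`.

(2) Question Q1 has a positive answer for `K` if and only if for all finite sets `H` of triples the
two-dimensional irreducible subquotients over `G_K` of `Gr^W_{2a-1} H^n_c(X_H)(a - 1)` which are isomorphic
to `rho E` for some `E` in `V` have this only for modular `E`.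
-/

set_option autoImplicit false

open CategoryTheory CategoryTheory.Limits AlgebraicGeometry Pool.Agent.Y116.UV Pool.Agent.Z125.UN
  Pool.Agent.Q193.LT Pool.Agent.Q49.WU

universe v u

namespace Pool.Agent.Results.MP_87c685_nt.HypergraphCubics

/-- **Elliptic curves over imaginary quadratic fields and hypergraphs.** See the explanations above. -/
theorem result {K : Type} [Field K] [NumberField K] [NumberField.IsTotallyComplex K]
    (_hK : Module.finrank ℚ K = 2) {A : Type u} [Category.{v} A] [Abelian A]
    {D : WeightData ℚ A} (h : IsWeight D) (hg : WGenerated D) {V : Type} {md : V → Prop}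
    {rho : V → A} (irred : ∀ E, Simple (rho E)) (weight : ∀ E, HasWeight D (rho E))
    (point : ∀ E N, ¬ OccursAt D (rho E) N (aff ℚ ℚ))
    (curve : ∀ E, ∃ Y : Sch ℚ, SmoothProj Y ∧ OccursAt D (rho E) 0 Y) :
    (∀ E, ∃ (a b c : ℕ) (H : Finset (Fin a × Fin b × Fin c)),
      OccursAt D (rho E) (a - 1) (tripS ℚ H)) ∧
    ((∀ E, md E) ↔ ∀ (a b c : ℕ) (H : Finset (Fin a × Fin b × Fin c)) (σ : A),
      OccursAt D σ (a - 1) (tripS ℚ H) → ∀ E, Nonempty (σ ≅ rho E) → md E) := by
  have key : ∀ E, ∃ (a b c : ℕ) (H : Finset (Fin a × Fin b × Fin c)),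
      OccursAt D (rho E) (a - 1) (tripS ℚ H) := by
    intro E
    have := irred E
    have h2 := origin_graphs h hg (weight E) (point E) frac_rat 0
    simp only [zero_add] at h2
    exact h2.mp (curve E)
  refine ⟨key, fun h1 _ _ _ _ _ _ E _ => h1 E, fun h1 E => ?_⟩
  obtain ⟨a, b, c, H, h2⟩ := key E
  exact h1 a b c H (rho E) h2 E ⟨Iso.refl _⟩

end Pool.Agent.Results.MP_87c685_nt.HypergraphCubics
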