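import Pool.Agent.Q193.LT.Simp

/-!
# Elliptic curves over imaginary quadratic fields and cubics with rational coefficients

Let `K` be an imaginary quadratic field and `ℓ` a prime number. Let `A` be the abelian category of the
continuous finite-dimensional representations of `G_K` over `ℚ̄_ℓ`, with the Tate twists `N ↦ N(j)`. For a
separated scheme `X` of finite type over `ℚ` let `D.H i X` be the representation `H^i_c(X_{ℚ̄}, ℚ̄_ℓ)` of
`G_ℚ`, restricted to `G_K`. Its standard properties are `IsCompact D` (long exact sequences, affine
bundles, products with `𝔾_m`) and `Generated D` (smooth projective varieties generate in each dimension,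
by resolution of singularities). `Occurs D ρ N` says that `ρ` is isomorphic to a subquotient of a Tate
twist of `N`.

For an elliptic curve `E` over `K` without complex multiplication by an order in `K` (the type `V` of all
such elliptic curves) let `rho E` be the representation of `G_K` on `H^1(E_{K̄}, ℚ̄_ℓ)`. It is irreducible
(Serre), of dimension two, so it does not occur in the cohomology of the point (hypothesis `point`), and it
occurs in `D.H 1 E`, where `E` is considered as a smooth projective curve over `ℚ` (hypothesis `curve`). Let
`md E` be the statement that `E` is modular by a Bianchi newform over `K`; by the theorem of Faltings it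
depends only on the isomorphism class of `rho E`.

**Theorem.** (1) For every elliptic curve `E` over `K` without complex multiplication by an order in `K` the
representation `rho E` is a subquotient of a Tate twist of `H^i_c(Z)`, restricted to `G_K`, for some `i` and
some smooth affine cubic hypersurface `Z : T(x, y, z) = 1`, where `T` is a trilinear form with *rational*
coefficients such that one of the three blocks of variables has at most three variables.

(2) All these elliptic curves over `K` are modular (question Q1 for `K`) if and only if the following is
true for all these hypersurfaces `Z` over `ℚ`: all irreducible subquotients, over `G_K`, of the Tate twists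
of `H^i_c(Z)` that come from such elliptic curves `E` come only from modular ones.
-/

set_option autoImplicit false

open CategoryTheory CategoryTheory.Limits AlgebraicGeometry Pool.Agent.Y116.UV Pool.Agent.Z125.UN
  Pool.Agent.Q193.LT

universe v u

namespace Pool.Agent.Results.MP_87c685_nt.RationalCubics

/-- **Modularity over imaginary quadratic fields and cubic hypersurfaces over `ℚ`.** See the explanations
above. -/
theorem result {K : Type} [Field K] [NumberField K] (_hK : Module.finrank ℚ K = 2) {A : Type u}
    [Category.{v} A] [Abelian A] {D : CompactData ℚ A} (hD : IsCompact D) (hg : Generated D)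
    {V : Type 1} {rho : V → A} {md : V → Prop} (simple : ∀ E, Simple (rho E))
    (point : ∀ E i, ¬ Occurs D (rho E) (D.H i (aff ℚ ℚ)))
    (curve : ∀ E, ∃ Y : Sch ℚ, SmoothProj Y ∧ topologicalKrullDim Y.left ≤ (1 : ℕ) ∧
      ∃ i, Occurs D (rho E) (D.H i Y)) :
    (∀ E, ∃ (a b c : ℕ) (T : Fin a → Fin b → Fin c → ℚ), (a ≤ 3 ∨ b ≤ 3 ∨ c ≤ 3) ∧
      ∃ i, Occurs D (rho E) (D.H i (hypS T))) ∧
    ((∀ E, md E) ↔ SimplesOf D (BlockForms ℚ 3) fun ρ => ∀ E, Nonempty (ρ ≅ rho E) → md E) := by
  have h1 : ∀ E, ∃ (a b c : ℕ) (T : Fin a → Fin b → Fin c → ℚ), (a ≤ 3 ∨ b ≤ 3 ∨ c ≤ 3) ∧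
      ∃ i, Occurs D (rho E) (D.H i (hypS T)) := by
    intro E
    have := simple E
    rcases (origin_proj hD (rho E) hg 1).mp (curve E) with ⟨i, hi⟩ | h
    · exact absurd hi (point E i)
    · exact h
  refine ⟨h1, fun h ρ _ _ E _ => h E, fun h E => ?_⟩
  obtain ⟨a, b, c, T, hm, i, hi⟩ := h1 E
  exact h (rho E) (simple E) ⟨hypS T, ⟨a, b, c, T, hm, rfl⟩, i, hi⟩ E ⟨Iso.refl _⟩

end Pool.Agent.Results.MP_87c685_nt.RationalCubics
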