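import Pool.Agent.Q45.ML.Twist
import Pool.Agent.Q45.ML.EC

set_option autoImplicit false

/-!
# All twisted `L`-functions of an elliptic curve are entire if and only if one-sided smoothed sums in the strip

`E` is an elliptic curve over a number field `K`, `χ_x`, `x ∈ X`, a family of (Hecke) characters. By the converse theorem of
Jacquet and Langlands, the modularity of `E` is the statement that all twisted `L`-functions are entire; this is
equivalent to one-sided bounds for absolutely convergent sums, at the points of the strip `1 ≤ Re ρ ≤ 3/2`.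
-/

namespace Pool.Agent.Results.MP_87c685_nt.TwistsInTheStrip

open Filter Topology Asymptotics NumberField IsDedekindDomain
open Pool.Agent.Q45.ML Pool.Agent.W189.NF

variable {K : Type} [Field K] [NumberField K]

/-- the norm of a finite place -/
noncomputable def N (v : HeightOneSpectrum (𝓞 K)) : ℝ := Ideal.absNorm v.asIdeal

/-- `α` are the local parameters of the twist of `E` by `χ`: outside the finite set `Sb` these are the roots of
`X² - χ(v) a_v X + χ(v)² e_v`, `a_v` and `e_v` the coefficients of the Euler factor of `E` (`a_v = q_v + 1 - #E(k_v)`,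
`e_v = q_v` for good reduction), and all are at most `q_v^{1/2}` in absolute value -/
def IsTwist (E : WeierstrassCurve K) (χ : HeightOneSpectrum (𝓞 K) → ℂ) (Sb : Finset (HeightOneSpectrum (𝓞 K)))
    (α : HeightOneSpectrum (𝓞 K) → Fin 2 → ℂ) : Prop :=
  (∀ v ∉ Sb, α v 0 + α v 1 = χ v * (aV E v : ℤ) ∧ α v 0 * α v 1 = χ v ^ 2 * (eV E v : ℤ)) ∧
    ∀ v j, ‖α v j‖ ≤ N v ^ (1 / 2 : ℝ)

/-- the term at `(v, k)`, `k = z.2 + 1`, of the smoothed sum at `ρ`: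
`((α_v^k + β_v^k)/(k N(v)^{kρ})) · e^{iγ k log N(v)/T} / Γ(1 + k log N(v)/T)` -/
noncomputable def term (α : HeightOneSpectrum (𝓞 K) → Fin 2 → ℂ) (ρ : ℂ) (γ T : ℝ)
    (z : HeightOneSpectrum (𝓞 K) × ℕ) : ℂ :=
  (α z.1 0 ^ (z.2 + 1) + α z.1 1 ^ (z.2 + 1)) / ((z.2 + 1) * (N z.1 : ℂ) ^ ((z.2 + 1) * ρ)) *
    (Complex.exp ((γ * ((z.2 + 1) * Real.log (N z.1) / T) : ℝ) * Complex.I) /
      (Real.Gamma (1 + (z.2 + 1) * Real.log (N z.1) / T) : ℂ))

/-- the smoothed sum at `ρ` -/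
noncomputable def S (α : HeightOneSpectrum (𝓞 K) → Fin 2 → ℂ) (ρ : ℂ) (γ T : ℝ) : ℂ := ∑' z, term α ρ γ T z

/-- the constant `Λ(γ) = ∫_0^∞ (e^{-t} - e^{iγt}/Γ(1+t)) dt/t` -/
noncomputable def Lam (γ : ℝ) : ℂ := Pool.Agent.W187.UR.Lam γ

/-- the `L x` are meromorphic on `ℂ`, equal to the Euler products of the parameters `α x` for `Re s > 3/2`, and satisfy
the functional equations `A_x(s) L_x(s) = A'_x(2 - s) L_{x̄}(2 - s)` (near `1`, hence everywhere), where the factors `A_x` have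
no zeros and the `A'_x` no poles with `Re s ≥ 1` -/
structure IsFamily {X : Type} (bar : X → X) (α : X → HeightOneSpectrum (𝓞 K) → Fin 2 → ℂ) (L A A' : X → ℂ → ℂ) :
    Prop where
  mero : ∀ x z, MeromorphicAt (L x) z
  euler : ∀ x, ∀ s : ℂ, 3 / 2 < s.re → HasProd (fun v : HeightOneSpectrum (𝓞 K) =>
    ((1 - α x v 0 * (N v : ℂ) ^ (-s)) * (1 - α x v 1 * (N v : ℂ) ^ (-s)))⁻¹) (L x s)
  fe : ∀ x, ∀ᶠ s in 𝓝[≠] (1 : ℂ), A x s * L x s = A' x (2 - s) * L (bar x) (2 - s)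
  meroA : ∀ x z, MeromorphicAt (A x) z ∧ MeromorphicAt (A' x) z
  noZero : ∀ x z, meromorphicOrderAt (A x) z ≤ 0
  noPole : ∀ x z, 1 ≤ z.re → 0 ≤ meromorphicOrderAt (A' x) z

theorem term_eq (α : HeightOneSpectrum (𝓞 K) → Fin 2 → ℂ) (ρ : ℂ) (γ T : ℝ) (z : HeightOneSpectrum (𝓞 K) × ℕ) :
    cterm (fun v : HeightOneSpectrum (𝓞 K) => nrm v) α ρ γ T z = term α ρ γ T z := by
  unfold cterm term N nrm
  rw [Fin.sum_univ_two]

theorem S_eq (α : HeightOneSpectrum (𝓞 K) → Fin 2 → ℂ) (ρ : ℂ) (γ T : ℝ) :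
    csum (fun v : HeightOneSpectrum (𝓞 K) => nrm v) α ρ γ T = S α ρ γ T := by
  unfold csum S
  exact tsum_congr fun z => term_eq α ρ γ T z

theorem result (E : WeierstrassCurve K) {X : Type} (χ : X → HeightOneSpectrum (𝓞 K) → ℂ)
    (Sb : X → Finset (HeightOneSpectrum (𝓞 K))) (α : X → HeightOneSpectrum (𝓞 K) → Fin 2 → ℂ)
    (hα : ∀ x, IsTwist E (χ x) (Sb x) (α x)) (bar : X → X) (L A A' : X → ℂ → ℂ) (hL : IsFamily bar α L A A')
    {γ : ℝ} (hγ : Real.pi / 2 < γ) :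
    (∀ x (ρ : ℂ) (T : ℝ), 0 < T → Summable fun z => ‖term (α x) ρ γ T z‖) ∧
    (∀ x (ρ : ℂ), ∃ (m : ℤ) (r : ℂ), meromorphicOrderAt (L x) ρ = m ∧
      Complex.exp r = meromorphicTrailingCoeffAt (L x) ρ ∧
      (fun T : ℝ => S (α x) ρ γ T - (r - m * (Real.log T - Lam γ))) =O[atTop] (fun T : ℝ => 1 / T) ∧
      List.TFAE [0 ≤ m, ∃ M : ℝ, ∀ᶠ T : ℝ in atTop, (S (α x) ρ γ T).re ≤ M,
        ∃ ε > 0, ∃ t : ℕ → ℝ, Tendsto t atTop atTop ∧ ∀ i, (S (α x) ρ γ (t i)).re ≤ (1 - ε) * Real.log (t i)]) ∧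
    List.TFAE [∀ x, ∃ g : ℂ → ℂ, Differentiable ℂ g ∧ ∀ s : ℂ, 3 / 2 < s.re → g s = L x s,
      ∀ x (ρ : ℂ), ∃ M : ℝ, ∀ᶠ T : ℝ in atTop, (S (α x) ρ γ T).re ≤ M,
      ∀ x (ρ : ℂ), 1 ≤ ρ.re → ρ.re ≤ 3 / 2 → ∃ ε > 0, ∃ t : ℕ → ℝ, Tendsto t atTop atTop ∧
        ∀ i, (S (α x) ρ γ (t i)).re ≤ (1 - ε) * Real.log (t i)] := by
  have hE : ∀ x, Eul 2 (fun v : HeightOneSpectrum (𝓞 K) => nrm v) (α x) (1 / 2) 1 := fun x =>
    ⟨zero_le_one, two_le_nrm, fun _ hσ => nrm_summable hσ, (hα x).2⟩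
  have h32 : (1 / 2 : ℝ) + 1 = 3 / 2 := by norm_num
  have heul : ∀ x, ∀ s : ℂ, (1 / 2 : ℝ) + 1 < s.re → HasProd (fun v : HeightOneSpectrum (𝓞 K) =>
      ∏ j, (1 - α x v j * (nrm v : ℂ) ^ (-s))⁻¹) (L x s) := by
    intro x s hs
    rw [h32] at hs
    refine (hL.euler x s hs).congr_fun fun v => ?_
    rw [Fin.prod_univ_two, mul_inv]
    rfl
  refine ⟨fun x ρ T hT => ?_, fun x ρ => ?_, ?_⟩
  · have := (hE x).cterm_summable ρ γ hT
    simpa only [term_eq] using this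
  · have := (hE x).point (hL.mero x) (heul x) hγ ρ
    simp only [S_eq] at this
    exact this
  · have := twists_tfae hE hL.mero heul bar (w := 2) (z₀ := 1) (fun x z => (hL.meroA x z).1)
      (fun x z => (hL.meroA x z).2) (by simpa using hL.fe) hL.noZero
      (fun x z hz => hL.noPole x z (by linarith)) hγ
    simp only [S_eq, h32, show (2 : ℝ) / 2 = 1 by norm_num] at this
    exact this

end Pool.Agent.Results.MP_87c685_nt.TwistsInTheStrip
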